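import Pool.Agent.Helper97.CB.Defs

/-!
# The area of a set bounded by its support function (upper bound)

If `Re (x e^{-iθ}) ≤ g θ` for all `x ∈ K` and all `θ`, where `g > 0` is a `2π`-periodic `C²` function with
`g + g'' ≥ 0`, then `area K ≤ (1/2) ∫ g (g + g'')`.
-/

set_option autoImplicit false

open MeasureTheory Set Real

namespace Helper11.RC

/-- the curve with the support function `g` (and `g' = g1`) -/
noncomputable def cur (g g1 : ℝ → ℝ) (θ : ℝ) : ℂ :=
  ((g θ : ℂ) + (g1 θ : ℂ) * Complex.I) * Complex.exp ((θ : ℂ) * Complex.I)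

theorem hasDerivAt_expI (θ : ℝ) : HasDerivAt (fun t : ℝ => Complex.exp ((t : ℂ) * Complex.I))
    (Complex.exp ((θ : ℂ) * Complex.I) * Complex.I) θ := by
  have h1 : HasDerivAt (fun t : ℝ => (t : ℂ) * Complex.I) Complex.I θ := by
    have := (Complex.ofRealCLM.hasDerivAt (x := θ)).mul_const Complex.I
    simpa using this
  exact h1.cexp

theorem cur_deriv (g g1 g2 : ℝ → ℝ) (θ : ℝ) (hg : HasDerivAt g (g1 θ) θ)
    (hg1 : HasDerivAt g1 (g2 θ) θ) :
    HasDerivAt (cur g g1) (((g θ + g2 θ : ℝ) : ℂ) * (Complex.I * Complex.exp ((θ : ℂ) * Complex.I))) θ := by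
  have h1 : HasDerivAt (fun t : ℝ => (g t : ℂ)) (g1 θ : ℂ) θ := hg.ofReal_comp
  have h2 : HasDerivAt (fun t : ℝ => (g1 t : ℂ)) (g2 θ : ℂ) θ := hg1.ofReal_comp
  have h3 := (h1.add (h2.mul_const Complex.I)).mul (hasDerivAt_expI θ)
  have e : ((g1 θ : ℂ) + (g2 θ : ℂ) * Complex.I) * Complex.exp ((θ : ℂ) * Complex.I) +
      ((g θ : ℂ) + (g1 θ : ℂ) * Complex.I) * (Complex.exp ((θ : ℂ) * Complex.I) * Complex.I) =
      ((g θ + g2 θ : ℝ) : ℂ) * (Complex.I * Complex.exp ((θ : ℂ) * Complex.I)) := by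
    push_cast
    have hI := Complex.I_mul_I
    linear_combination ((g1 θ : ℂ) * Complex.exp ((θ : ℂ) * Complex.I)) * hI
  rw [← e]
  exact h3

/-- the polar type map -/
noncomputable def pol (g g1 : ℝ → ℝ) (z : ℂ) : ℂ := (z.re : ℂ) * cur g g1 z.im

theorem pol_deriv (g g1 g2 : ℝ → ℝ) (hg : ∀ θ, HasDerivAt g (g1 θ) θ)
    (hg1 : ∀ θ, HasDerivAt g1 (g2 θ) θ) (z : ℂ) :
    HasFDerivAt (pol g g1)
      (Complex.reCLM.smulRight (cur g g1 z.im) + Complex.imCLM.smulRight
        ((z.re : ℂ) * (((g z.im + g2 z.im : ℝ) : ℂ) *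
          (Complex.I * Complex.exp ((z.im : ℂ) * Complex.I))))) z := by
  have h1 : HasFDerivAt (fun z : ℂ => (z.re : ℂ)) (Complex.ofRealCLM.comp Complex.reCLM) z :=
    (Complex.ofRealCLM.comp Complex.reCLM).hasFDerivAt
  have h3 := (cur_deriv g g1 g2 z.im (hg _) (hg1 _)).hasFDerivAt
  have h4 : HasFDerivAt (fun z : ℂ => z.im) Complex.imCLM z := Complex.imCLM.hasFDerivAt
  have h5 : HasFDerivAt (fun z : ℂ => cur g g1 z.im) _ z := h3.comp z h4
  have h6 : HasFDerivAt (pol g g1) _ z := h1.mul h5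
  have key : (Complex.reCLM.smulRight (cur g g1 z.im) + Complex.imCLM.smulRight
        ((z.re : ℂ) * (((g z.im + g2 z.im : ℝ) : ℂ) *
          (Complex.I * Complex.exp ((z.im : ℂ) * Complex.I)))) : ℂ →L[ℝ] ℂ) =
      (z.re : ℂ) • (ContinuousLinearMap.toSpanSingleton ℝ (((g z.im + g2 z.im : ℝ) : ℂ) *
        (Complex.I * Complex.exp ((z.im : ℂ) * Complex.I)))).comp Complex.imCLM +
      cur g g1 z.im • Complex.ofRealCLM.comp Complex.reCLM := by
    apply ContinuousLinearMap.ext
    intro w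
    simp only [ContinuousLinearMap.add_apply, ContinuousLinearMap.smulRight_apply,
      ContinuousLinearMap.smul_apply, ContinuousLinearMap.comp_apply,
      ContinuousLinearMap.toSpanSingleton_apply, Complex.reCLM_apply, Complex.imCLM_apply,
      Complex.ofRealCLM_apply, Complex.real_smul, smul_eq_mul]
    ring
  rw [key]
  exact h6

theorem det_two (A B : ℂ) :
    (Complex.reCLM.smulRight A + Complex.imCLM.smulRight B : ℂ →L[ℝ] ℂ).det =
      A.re * B.im - A.im * B.re := by
  rw [ContinuousLinearMap.det, ← LinearMap.det_toMatrix Complex.basisOneI, Matrix.det_fin_two]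
  simp [LinearMap.toMatrix_apply, Complex.basisOneI]
  ring

/-- surjectivity: every point below the support function is on a scaled copy of the curve -/
theorem exists_pol (g g1 : ℝ → ℝ) (hg : ∀ θ, HasDerivAt g (g1 θ) θ)
    (per : ∀ θ, g (θ + 2 * π) = g θ) (pos : ∀ θ, 0 < g θ) (x : ℂ) (hx : x ≠ 0)
    (hK : ∀ θ : ℝ, (x * Complex.exp (-((θ : ℂ) * Complex.I))).re ≤ g θ) :
    ∃ r ∈ Ioc (0 : ℝ) 1, ∃ θ ∈ Ico (0 : ℝ) (2 * π), x = (r : ℂ) * cur g g1 θ := by
  set φ : ℝ → ℝ := fun θ => (x * Complex.exp (-((θ : ℂ) * Complex.I))).re with hφ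
  have dφ : ∀ θ : ℝ, HasDerivAt φ ((x * Complex.exp (-((θ : ℂ) * Complex.I))).im) θ := by
    intro θ
    have h0 : HasDerivAt (fun t : ℝ => (t : ℂ) * Complex.I) Complex.I θ := by
      have := (Complex.ofRealCLM.hasDerivAt (x := θ)).mul_const Complex.I
      simpa using this
    have h1 : HasDerivAt (fun t : ℝ => -((t : ℂ) * Complex.I)) (-Complex.I) θ := h0.neg
    have h2 := (h1.cexp).const_mul x
    have h3 := (Complex.reCLM.hasFDerivAt (x := x * Complex.exp (-((θ : ℂ) * Complex.I)))).comp_hasDerivAt θ h2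
    have e : Complex.reCLM (x * (Complex.exp (-((θ : ℂ) * Complex.I)) * -Complex.I)) =
        (x * Complex.exp (-((θ : ℂ) * Complex.I))).im := by
      rw [← mul_assoc]
      simp
    rw [← e]
    exact h3
  have cφ : Continuous φ := continuous_iff_continuousAt.2 (fun θ => (dφ θ).continuousAt)
  have cg : Continuous g := continuous_iff_continuousAt.2 (fun θ => (hg θ).continuousAt)
  have pφ : Function.Periodic φ (2 * π) := by
    intro θ
    simp only [hφ]
    congr 2
    push_cast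
    rw [show -(((θ : ℂ) + 2 * π) * Complex.I) = -((θ : ℂ) * Complex.I) - 2 * π * Complex.I by ring]
    rw [Complex.exp_sub, Complex.exp_two_pi_mul_I, div_one]
  set q : ℝ → ℝ := fun θ => φ θ / g θ with hq
  have cq : Continuous q := cφ.div cg (fun θ => (pos θ).ne')
  have pq : Function.Periodic q (2 * π) := by
    intro θ
    simp only [hq]
    rw [pφ θ, per θ]
  have h2π : (0 : ℝ) < 2 * π := by positivity
  obtain ⟨θ₀, -, hmax⟩ := (isCompact_Icc (a := (0 : ℝ)) (b := 2 * π)).exists_isMaxOn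
    (nonempty_Icc.2 h2π.le) cq.continuousOn
  -- replace by a point of Ico
  obtain ⟨θ, hθ, hqθ⟩ := pq.exists_mem_Ico₀ h2π θ₀
  have gmax : ∀ t, q t ≤ q θ := by
    intro t
    obtain ⟨s, hs, hqs⟩ := pq.exists_mem_Ico₀ h2π t
    rw [hqs, ← hqθ]
    exact hmax ⟨hs.1, hs.2.le⟩
  have dq : HasDerivAt q (((x * Complex.exp (-((θ : ℂ) * Complex.I))).im * g θ - φ θ * g1 θ) / g θ ^ 2) θ :=
    (dφ θ).div (hg θ) (pos θ).ne'
  have h0 : ((x * Complex.exp (-((θ : ℂ) * Complex.I))).im * g θ - φ θ * g1 θ) / g θ ^ 2 = 0 :=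
    IsLocalMax.hasDerivAt_eq_zero (Filter.Eventually.of_forall gmax) dq
  have hgp := pos θ
  have h1 : (x * Complex.exp (-((θ : ℂ) * Complex.I))).im * g θ = φ θ * g1 θ := by
    have := (div_eq_zero_iff.1 h0).resolve_right (by positivity)
    linarith
  set r := q θ with hr
  have hr1 : r ≤ 1 := by
    rw [hr, hq]
    exact (div_le_one hgp).2 (hK θ)
  have hr0 : 0 < r := by
    have := gmax (Complex.arg x)
    refine lt_of_lt_of_le ?_ this
    have e : φ (Complex.arg x) = ‖x‖ := by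
      simp only [hφ]
      have h5 := Complex.norm_mul_exp_arg_mul_I x
      have : x * Complex.exp (-((Complex.arg x : ℂ) * Complex.I)) = (‖x‖ : ℂ) := by
        calc x * Complex.exp (-((Complex.arg x : ℂ) * Complex.I))
            = (‖x‖ : ℂ) * Complex.exp ((Complex.arg x : ℂ) * Complex.I) *
              Complex.exp (-((Complex.arg x : ℂ) * Complex.I)) := by rw [h5]
          _ = (‖x‖ : ℂ) := by
              rw [mul_assoc, ← Complex.exp_add, add_neg_cancel, Complex.exp_zero, mul_one]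
      rw [this, Complex.ofReal_re]
    simp only [hq]
    rw [e]
    exact div_pos (norm_pos_iff.2 hx) (pos _)
  have hre : (x * Complex.exp (-((θ : ℂ) * Complex.I))).re = r * g θ := by
    rw [hr, hq]
    simp only [hφ]
    field_simp
  have him : (x * Complex.exp (-((θ : ℂ) * Complex.I))).im = r * g1 θ := by
    have h3 : φ θ = r * g θ := hre
    rw [h3] at h1
    have : ((x * Complex.exp (-((θ : ℂ) * Complex.I))).im - r * g1 θ) * g θ = 0 := by
      linarith [h1]
    rcases mul_eq_zero.1 this with h | h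
    · linarith
    · exact absurd h hgp.ne'
  refine ⟨r, ⟨hr0, hr1⟩, θ, hθ, ?_⟩
  have h6 : x * Complex.exp (-((θ : ℂ) * Complex.I)) = (r : ℂ) * ((g θ : ℂ) + (g1 θ : ℂ) * Complex.I) := by
    apply Complex.ext
    · rw [hre]; simp
    · rw [him]; simp
  calc x = x * Complex.exp (-((θ : ℂ) * Complex.I)) * Complex.exp ((θ : ℂ) * Complex.I) := by
        rw [mul_assoc, ← Complex.exp_add, neg_add_cancel, Complex.exp_zero, mul_one]
    _ = (r : ℂ) * cur g g1 θ := by
        rw [h6, cur]; ring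

/-- the area bound -/
theorem area_le (K : Set ℂ) (g g1 g2 : ℝ → ℝ) (hg : ∀ θ, HasDerivAt g (g1 θ) θ)
    (hg1 : ∀ θ, HasDerivAt g1 (g2 θ) θ) (c2 : Continuous g2)
    (per : ∀ θ, g (θ + 2 * π) = g θ) (pos : ∀ θ, 0 < g θ) (cv : ∀ θ, 0 ≤ g θ + g2 θ)
    (hK : ∀ x ∈ K, ∀ θ : ℝ, (x * Complex.exp (-((θ : ℂ) * Complex.I))).re ≤ g θ) :
    Helper97.CB.area K ≤ (1 / 2) * ∫ θ in (0 : ℝ)..(2 * π), g θ * (g θ + g2 θ) := by
  have cg : Continuous g := continuous_iff_continuousAt.2 (fun θ => (hg θ).continuousAt)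
  have h2π : (0 : ℝ) ≤ 2 * π := by positivity
  set s : Set ℂ := Ioc (0 : ℝ) 1 ×ℂ Ico (0 : ℝ) (2 * π) with hs
  have ms : MeasurableSet s := by
    rw [hs]
    exact (measurableSet_Ioc.preimage Complex.measurable_re).inter
      (measurableSet_Ico.preimage Complex.measurable_im)
  have sub : K ⊆ {0} ∪ pol g g1 '' s := by
    intro x hx
    by_cases h0 : x = 0
    · left; exact h0
    · right
      obtain ⟨r, hr, θ, hθ, e⟩ := exists_pol g g1 hg per pos x h0 (hK x hx)
      refine ⟨⟨r, θ⟩, ?_, ?_⟩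
      · rw [hs, Complex.mem_reProdIm]
        exact ⟨hr, hθ⟩
      · rw [pol]; exact e.symm
  have hdet : ∀ z : ℂ, (Complex.reCLM.smulRight (cur g g1 z.im) + Complex.imCLM.smulRight
        ((z.re : ℂ) * (((g z.im + g2 z.im : ℝ) : ℂ) *
          (Complex.I * Complex.exp ((z.im : ℂ) * Complex.I)))) : ℂ →L[ℝ] ℂ).det =
      z.re * (g z.im * (g z.im + g2 z.im)) := by
    intro z
    rw [det_two]
    have he : Complex.exp ((z.im : ℂ) * Complex.I) = (Real.cos z.im : ℂ) + (Real.sin z.im : ℂ) * Complex.I := by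
      rw [Complex.exp_mul_I, Complex.ofReal_cos, Complex.ofReal_sin]
    have hsc := Real.sin_sq_add_cos_sq z.im
    simp only [cur, he]
    simp only [Complex.mul_re, Complex.mul_im, Complex.add_re, Complex.add_im, Complex.ofReal_re,
      Complex.ofReal_im, Complex.I_re, Complex.I_im]
    linear_combination (z.re * g z.im * (g z.im + g2 z.im)) * hsc
  have hle : volume K ≤ ∫⁻ z in s, ENNReal.ofReal (z.re * (g z.im * (g z.im + g2 z.im))) := by
    calc volume K ≤ volume ({0} ∪ pol g g1 '' s) := measure_mono sub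
      _ ≤ volume ({0} : Set ℂ) + volume (pol g g1 '' s) := measure_union_le _ _
      _ = volume (pol g g1 '' s) := by rw [measure_singleton, zero_add]
      _ ≤ ∫⁻ z in s, ENNReal.ofReal |(Complex.reCLM.smulRight (cur g g1 z.im) +
          Complex.imCLM.smulRight ((z.re : ℂ) * (((g z.im + g2 z.im : ℝ) : ℂ) *
          (Complex.I * Complex.exp ((z.im : ℂ) * Complex.I)))) : ℂ →L[ℝ] ℂ).det| :=
        addHaar_image_le_lintegral_abs_det_fderiv volume ms
          (fun z _ => (pol_deriv g g1 g2 hg hg1 z).hasFDerivWithinAt)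
      _ = ∫⁻ z in s, ENNReal.ofReal (z.re * (g z.im * (g z.im + g2 z.im))) := by
        refine setLIntegral_congr_fun ms ?_
        intro z hz
        rw [hs, Complex.mem_reProdIm] at hz
        have h1 : 0 ≤ z.re * (g z.im * (g z.im + g2 z.im)) :=
          mul_nonneg hz.1.1.le (mul_nonneg (pos _).le (cv _))
        simp only [hdet]
        rw [abs_of_nonneg h1]
  have hint : ∫⁻ z in s, ENNReal.ofReal (z.re * (g z.im * (g z.im + g2 z.im))) =
      ENNReal.ofReal ((1 / 2) * ∫ θ in (0 : ℝ)..(2 * π), g θ * (g θ + g2 θ)) := by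
    have cG : Continuous (fun z : ℂ => z.re * (g z.im * (g z.im + g2 z.im))) := by
      have := Complex.continuous_re
      have := Complex.continuous_im
      fun_prop
    have bs : s ⊆ Metric.closedBall (0 : ℂ) (1 + 2 * π) := by
      intro z hz
      rw [hs, Complex.mem_reProdIm] at hz
      rw [mem_closedBall_zero_iff]
      calc ‖z‖ ≤ |z.re| + |z.im| := Complex.norm_le_abs_re_add_abs_im z
        _ ≤ 1 + 2 * π := by
          rw [abs_of_pos hz.1.1, abs_of_nonneg hz.2.1]
          exact add_le_add hz.1.2 hz.2.2.le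
    have iG : IntegrableOn (fun z : ℂ => z.re * (g z.im * (g z.im + g2 z.im))) s volume :=
      (cG.continuousOn.integrableOn_compact (isCompact_closedBall 0 (1 + 2 * π))).mono_set bs
    rw [← ofReal_integral_eq_lintegral_ofReal iG]
    · congr 1
      have e1 : ∫ z in s, z.re * (g z.im * (g z.im + g2 z.im)) =
          ∫ p in (Ioc (0 : ℝ) 1 ×ˢ Ico (0 : ℝ) (2 * π)), p.1 * (g p.2 * (g p.2 + g2 p.2))
            ∂((volume : Measure ℝ).prod (volume : Measure ℝ)) := by
        have h1 := Complex.volume_preserving_equiv_real_prod.setIntegral_preimage_emb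
          Complex.measurableEquivRealProd.measurableEmbedding
          (fun p : ℝ × ℝ => p.1 * (g p.2 * (g p.2 + g2 p.2)))
          (Ioc (0 : ℝ) 1 ×ˢ Ico (0 : ℝ) (2 * π))
        have h2 : (Complex.measurableEquivRealProd ⁻¹' (Ioc (0 : ℝ) 1 ×ˢ Ico (0 : ℝ) (2 * π))) = s := by
          ext z
          simp [hs, Complex.mem_reProdIm, Complex.measurableEquivRealProd]
        rw [h2] at h1
        simp only [Complex.measurableEquivRealProd_apply] at h1
        exact h1
      have e3 := setIntegral_prod_mul (μ := (volume : Measure ℝ)) (ν := (volume : Measure ℝ))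
        (fun x : ℝ => x) (fun y : ℝ => g y * (g y + g2 y)) (Ioc (0 : ℝ) 1) (Ico (0 : ℝ) (2 * π))
      rw [e1, e3]
      have e2 : ∫ x in Ioc (0 : ℝ) 1, x = 1 / 2 := by
        rw [← intervalIntegral.integral_of_le zero_le_one, integral_id]
        norm_num
      rw [e2, intervalIntegral.integral_of_le h2π, integral_Ico_eq_integral_Ioc]
    · refine (ae_restrict_iff' ms).2 (Filter.Eventually.of_forall ?_)
      intro z hz
      rw [hs, Complex.mem_reProdIm] at hz
      exact mul_nonneg hz.1.1.le (mul_nonneg (pos _).le (cv _))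
  rw [hint] at hle
  have hnn : 0 ≤ (1 / 2) * ∫ θ in (0 : ℝ)..(2 * π), g θ * (g θ + g2 θ) := by
    refine mul_nonneg (by norm_num) (intervalIntegral.integral_nonneg h2π ?_)
    intro θ _
    exact mul_nonneg (pos _).le (cv _)
  exact ENNReal.toReal_le_of_le_ofReal hnn hle

end Helper11.RC
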